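import Mathlib
import Pool.Agent.Lib.helper11.Trunc

open Finset Polynomial

namespace Pool.Agent.Results.MP_dbc085_nt.Fails

noncomputable def ser (a : ℕ → ℚ) : PowerSeries ℚ[X] := PowerSeries.mk fun j => C (a j)

noncomputable def G (s : ℕ → ℚ[X]) (r : ℕ) : PowerSeries ℚ[X] :=
  ∑ j ∈ Icc 1 r,
    PowerSeries.C (C ((-1) ^ (j + 1) * _root_.bernoulli j / (j * j.factorial)) * (s j - X)) *
    PowerSeries.X ^ j

noncomputable def P (s : ℕ → ℚ[X]) (r : ℕ) : ℚ[X] :=
  C ((-4) ^ r * r.factorial : ℚ) * PowerSeries.coeff r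
    (ser (fun j => 1 / j.factorial) * ser (fun j => _root_.bernoulli j / j.factorial) ^ (r + 1) *
      ∑ n ∈ range (r + 1), PowerSeries.C (C (1 / n.factorial : ℚ)) * G s r ^ n)

open Pool.Agent.Lib.helper11.Trunc in
theorem result (s : ℕ → ℚ[X])
    (hs : ∀ j N : ℕ, 1 ≤ j → (s j).eval (N : ℚ) = ∑ i ∈ Icc 1 N, (i : ℚ) ^ j) :
    ¬ ∀ r : ℕ, 1 ≤ r → ∀ x : ℝ, 0 ≤ aeval x (derivative (derivative (P s r))) := by
  intro h
  have hc : ConvexOn ℝ Set.univ (fun x : ℝ => aeval x (P s 8)) := by
    have d1 : deriv (fun x : ℝ => aeval x (P s 8)) = fun x => aeval x (derivative (P s 8)) := by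
      ext x; exact Polynomial.deriv_aeval _
    apply convexOn_univ_of_deriv2_nonneg
    · exact Polynomial.differentiable_aeval _
    · rw [d1]; exact Polynomial.differentiable_aeval _
    · intro x
      simp only [Function.iterate_succ, Function.iterate_zero, Function.comp, id]
      rw [d1, Polynomial.deriv_aeval]
      exact h 8 (by norm_num) x
  let b : List ℚ := [1, -1/2, 1/6, 0, -1/30, 0, 1/42, 0, -1/30]
  have hb : ∀ j < 9, _root_.bernoulli j = b.getD j 0 := by
    intro j hj
    have o3 := bernoulli_eq_zero_of_odd (n := 3) (by decide) (by norm_num)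
    have o5 := bernoulli_eq_zero_of_odd (n := 5) (by decide) (by norm_num)
    have o7 := bernoulli_eq_zero_of_odd (n := 7) (by decide) (by norm_num)
    have o2 : _root_.bernoulli 2 = 1 / 6 := by
      rw [bernoulli_eq_bernoulli'_of_ne_one (by norm_num), bernoulli'_two]
    have o4 : _root_.bernoulli 4 = -1 / 30 := by
      rw [bernoulli_eq_bernoulli'_of_ne_one (by norm_num), bernoulli'_four]
    have o6 : _root_.bernoulli 6 = 1 / 42 := by
      have := _root_.sum_bernoulli 7
      simp only [sum_range_succ, range_zero, sum_empty, o2, o3, o4, o5, _root_.bernoulli_zero,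
        _root_.bernoulli_one, Nat.choose] at this
      norm_num at this
      linarith
    have o8 : _root_.bernoulli 8 = -1 / 30 := by
      have := _root_.sum_bernoulli 9
      simp only [sum_range_succ, range_zero, sum_empty, o2, o3, o4, o5, o6, o7,
        _root_.bernoulli_zero, _root_.bernoulli_one, Nat.choose] at this
      norm_num at this
      linarith
    interval_cases j <;> simp [b, *]
  let l1 : List ℚ := (List.range 9).map fun j => 1 / j.factorial
  let l2 : List ℚ := (List.range 9).map fun j => b.getD j 0 / j.factorial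
  let l3 : ℕ → List ℚ := fun N => (List.range 9).map fun j =>
    if j = 0 then 0 else
      (-1) ^ (j + 1) * b.getD j 0 / (j * j.factorial) * (∑ i ∈ Icc 1 N, (i : ℚ) ^ j - N)
  let l4 : ℕ → ℕ → List ℚ := fun N m =>
    Nat.rec [] (fun n a => ladd a (lsmul (1 / n.factorial : ℚ) (lpow 9 (l3 N) n))) m
  have key : ∀ N : ℕ, (P s 8).eval (N : ℚ) = ((-4) ^ 8 * (8 : ℕ).factorial : ℚ) *
      (lmul 9 (lmul 9 l1 (lpow 9 l2 9)) (l4 N 9)).getD 8 0 := by
    intro N
    let φ : ℚ[X] →+* ℚ := evalRingHom (N : ℚ)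
    have t1 : Tr 9 (PowerSeries.map φ (ser fun j => 1 / j.factorial)) l1 := by
      intro i hi
      simp [ser, φ, l1, List.getD_eq_getElem?_getD, hi]
    have t2 : Tr 9 (PowerSeries.map φ (ser fun j => _root_.bernoulli j / j.factorial)) l2 := by
      intro i hi
      simp only [ser, φ, l2, PowerSeries.coeff_map, PowerSeries.coeff_mk, coe_evalRingHom, eval_C]
      rw [hb i hi]
      simp [List.getD_eq_getElem?_getD, hi]
    have t3 : Tr 9 (PowerSeries.map φ (G s 8)) (l3 N) := by
      intro i hi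
      simp only [G, PowerSeries.coeff_map, map_sum, PowerSeries.coeff_C_mul,
        PowerSeries.coeff_X_pow, mul_ite, mul_one, mul_zero, apply_ite φ, map_zero]
      rw [sum_ite_eq]
      by_cases h0 : i = 0
      · simp [h0, l3]
      · rw [if_pos (by simp; omega)]
        simp only [φ, coe_evalRingHom, eval_mul, eval_C, eval_sub, eval_X]
        rw [hs i N (by omega), hb i hi]
        simp [l3, List.getD_eq_getElem?_getD, hi, h0]
    have t4 : ∀ m, Tr 9 (PowerSeries.map φ
        (∑ n ∈ range m, PowerSeries.C (C (1 / n.factorial : ℚ)) * G s 8 ^ n)) (l4 N m) := by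
      intro m
      induction m with
      | zero => intro i _; simp [l4]
      | succ m ih =>
        rw [sum_range_succ, map_add, map_mul, map_pow, PowerSeries.map_C]
        have : φ (C (1 / m.factorial : ℚ)) = 1 / m.factorial := by simp [φ]
        rw [this]
        exact ih.add ((t3.pow m).smul _)
    have t5 := (t1.mul (t2.pow 9)).mul (t4 9) 8 (by norm_num)
    rw [← t5, ← map_pow, ← map_mul, ← map_mul, PowerSeries.coeff_map]
    simp only [P, eval_mul, eval_C, φ, coe_evalRingHom]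
  have hv : ∀ N : ℕ, aeval (N : ℝ) (P s 8) = (((P s 8).eval (N : ℚ) : ℚ) : ℝ) := by
    intro N
    have : (N : ℝ) = algebraMap ℚ ℝ (N : ℚ) := by simp
    rw [this, aeval_algebraMap_apply]
    simp
  have h2 := hc.2 (Set.mem_univ ((1 : ℕ) : ℝ)) (Set.mem_univ ((3 : ℕ) : ℝ))
    (show (0 : ℝ) ≤ 1 / 2 by norm_num) (show (0 : ℝ) ≤ 1 / 2 by norm_num) (by norm_num)
  have e : (1 / 2 : ℝ) • ((1 : ℕ) : ℝ) + (1 / 2 : ℝ) • ((3 : ℕ) : ℝ) = ((2 : ℕ) : ℝ) := by
    norm_num
  rw [e] at h2
  simp only [hv, key] at h2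
  have k1 : (lmul 9 (lmul 9 l1 (lpow 9 l2 9)) (l4 1 9)).getD 8 0 = 0 := by decide +kernel
  have k2 : (lmul 9 (lmul 9 l1 (lpow 9 l2 9)) (l4 2 9)).getD 8 0 = 1 / 256 := by decide +kernel
  have k3 : (lmul 9 (lmul 9 l1 (lpow 9 l2 9)) (l4 3 9)).getD 8 0 < 0 := by decide +kernel
  rw [k1, k2] at h2
  have k4 : (((lmul 9 (lmul 9 l1 (lpow 9 l2 9)) (l4 3 9)).getD 8 0 : ℚ) : ℝ) < 0 := by
    exact_mod_cast k3
  generalize (lmul 9 (lmul 9 l1 (lpow 9 l2 9)) (l4 3 9)).getD 8 0 = y at h2 k4
  push_cast at h2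
  norm_num [Nat.factorial] at h2
  linarith

end Pool.Agent.Results.MP_dbc085_nt.Fails
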